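import Mathlib

/-!
# An exotic topological quandle on the 2-sphere
-/

set_option autoImplicit false

namespace Pool.Agent.Results.MP_6238b5_al.ExoticQuandle

open Real

/-- Euclidean three-space. -/
abbrev E3 : Type := EuclideanSpace ℝ (Fin 3)

/-- The unit sphere of `ℝ^3` with its usual topology. -/
abbrev S2 : Type := Metric.sphere (0 : E3) 1

/-- A topological quandle structure on a topological space: a continuous operation
satisfying the three quandle axioms. -/
structure IsTopQuandle {X : Type} [TopologicalSpace X] (op : X → X → X) : Prop where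
  idem : ∀ x, op x x = x
  bij : ∀ y, Function.Bijective fun x => op x y
  dist : ∀ x y z, op (op x y) z = op (op x z) (op y z)
  cont : Continuous fun p : X × X => op p.1 p.2

/-- The cross product of two vectors. -/
noncomputable def cross (v u : E3) : E3 :=
  !₂[v 1 * u 2 - v 2 * u 1, v 2 * u 0 - v 0 * u 2, v 0 * u 1 - v 1 * u 0]

/-- The rotation of `u` by the angle `ψ` about the axis through `0` and the unit vector `v`, in the
positive sense with respect to `v` (Rodrigues' formula). -/
noncomputable def rot (ψ : ℝ) (v u : E3) : E3 :=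
  cos ψ • u + sin ψ • cross v u + ((1 - cos ψ) * inner ℝ v u) • v

/-- The operation `op` on the sphere is isomorphic to the spherical quandle with the angle `ψ`. -/
def IsoSpherical (op : S2 → S2 → S2) (ψ : ℝ) : Prop :=
  ∃ e : S2 ≃ₜ S2, ∀ x y : S2, (e (op x y) : E3) = rot ψ (e y : E3) (e x : E3)

/-- The operation `op` on the sphere is isomorphic to the trivial quandle. -/
def IsoTrivial (op : S2 → S2 → S2) : Prop :=
  ∃ e : S2 ≃ₜ S2, ∀ x y : S2, e (op x y) = e x

/-- the angle -/
noncomputable def ang (x y : E3) : ℝ := max 0 (y 2) * max 0 (-x 2)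

/-- rotation about the third axis -/
noncomputable def zrot (t : ℝ) (x : E3) : E3 :=
  !₂[cos t * x 0 - sin t * x 1, sin t * x 0 + cos t * x 1, x 2]

theorem zrot_zero (t : ℝ) (x : E3) : zrot t x 0 = cos t * x 0 - sin t * x 1 := by simp [zrot]
theorem zrot_one (t : ℝ) (x : E3) : zrot t x 1 = sin t * x 0 + cos t * x 1 := by simp [zrot]
theorem zrot_two (t : ℝ) (x : E3) : zrot t x 2 = x 2 := by simp [zrot]

theorem v0 (a b c : ℝ) : (!₂[a, b, c] : E3) 0 = a := rfl
theorem v1 (a b c : ℝ) : (!₂[a, b, c] : E3) 1 = b := rfl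
theorem v2 (a b c : ℝ) : (!₂[a, b, c] : E3) 2 = c := rfl

theorem w0 (a b c : ℝ) : (![a, b, c] : Fin 3 → ℝ) 0 = a := rfl
theorem w1 (a b c : ℝ) : (![a, b, c] : Fin 3 → ℝ) 1 = b := rfl
theorem w2 (a b c : ℝ) : (![a, b, c] : Fin 3 → ℝ) 2 = c := rfl

theorem ext3 {x y : E3} (h0 : x 0 = y 0) (h1 : x 1 = y 1) (h2 : x 2 = y 2) : x = y := by
  ext i
  fin_cases i
  · exact h0
  · exact h1
  · exact h2

theorem mem_sphere_iff (x : E3) : x ∈ Metric.sphere (0 : E3) 1 ↔ x 0 ^ 2 + x 1 ^ 2 + x 2 ^ 2 = 1 := by
  rw [mem_sphere_zero_iff_norm, EuclideanSpace.norm_eq, Real.sqrt_eq_one, Fin.sum_univ_three]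
  simp

theorem zrot_add (s t : ℝ) (x : E3) : zrot s (zrot t x) = zrot (s + t) x := by
  apply ext3
  · rw [zrot_zero, zrot_zero, zrot_zero, zrot_one, cos_add, sin_add]
    ring
  · rw [zrot_one, zrot_zero, zrot_one, zrot_one, cos_add, sin_add]
    ring
  · rw [zrot_two, zrot_two, zrot_two]

theorem zrot_z (x : E3) : zrot 0 x = x := by
  apply ext3
  · rw [zrot_zero]; simp
  · rw [zrot_one]; simp
  · rw [zrot_two]

theorem zrot_mem (t : ℝ) (x : E3) (hx : x ∈ Metric.sphere (0 : E3) 1) :
    zrot t x ∈ Metric.sphere (0 : E3) 1 := by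
  rw [mem_sphere_iff] at hx ⊢
  rw [zrot_zero, zrot_one, zrot_two]
  have := sin_sq_add_cos_sq t
  linear_combination (x 0 ^ 2 + x 1 ^ 2) * this + hx

/-- the operation -/
noncomputable def op (x y : S2) : S2 := ⟨zrot (ang x y) x, zrot_mem _ _ x.2⟩

theorem op_two (x y : S2) : (op x y : E3) 2 = (x : E3) 2 := zrot_two _ _

theorem ang_op_left (x y z : S2) : ang (op x y) z = ang x z := by
  unfold ang
  rw [op_two]

theorem ang_op_right (x y z : S2) : ang x (op y z) = ang x y := by
  unfold ang
  rw [op_two]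

theorem isTopQuandle_op : IsTopQuandle op where
  idem x := by
    apply Subtype.ext
    show zrot (ang x x) x = x
    have : ang x x = 0 := by
      unfold ang
      rcases le_total 0 ((x : E3) 2) with h | h
      · rw [max_eq_left (by linarith : -((x : E3) 2) ≤ 0), mul_zero]
      · rw [max_eq_left h, zero_mul]
    rw [this, zrot_z]
  bij y := by
    constructor
    · intro x x' h
      have h1 : zrot (ang x y) x = zrot (ang x' y) x' := congrArg Subtype.val h
      have h2 : (x : E3) 2 = (x' : E3) 2 := by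
        rw [← zrot_two (ang x y) x, h1, zrot_two]
      have h3 : ang x y = ang x' y := by
        unfold ang
        rw [h2]
      rw [h3] at h1
      have h4 := congrArg (zrot (-ang x' y)) h1
      rw [zrot_add, zrot_add, neg_add_cancel, zrot_z, zrot_z] at h4
      exact Subtype.ext h4
    · intro z
      refine ⟨⟨zrot (-ang z y) z, zrot_mem _ _ z.2⟩, ?_⟩
      apply Subtype.ext
      show zrot (ang (zrot (-ang z y) z) y) (zrot (-ang z y) z) = z
      have : ang (zrot (-ang z y) z) y = ang z y := by
        unfold ang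
        rw [zrot_two]
      rw [this, zrot_add, add_neg_cancel, zrot_z]
  dist x y z := by
    apply Subtype.ext
    show zrot (ang (op x y) z) (zrot (ang x y) x) = zrot (ang (op x z) (op y z)) (zrot (ang x z) x)
    rw [ang_op_left, ang_op_left, ang_op_right, zrot_add, zrot_add, add_comm]
  cont := by
    refine Continuous.subtype_mk ?_ _
    have c : ∀ i : Fin 3, Continuous fun p : S2 × S2 => (p.1 : E3) i := fun i =>
      (EuclideanSpace.proj i).continuous.comp (continuous_subtype_val.comp continuous_fst)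
    have c' : ∀ i : Fin 3, Continuous fun p : S2 × S2 => (p.2 : E3) i := fun i =>
      (EuclideanSpace.proj i).continuous.comp (continuous_subtype_val.comp continuous_snd)
    have ca : Continuous fun p : S2 × S2 => ang p.1 p.2 := by
      unfold ang
      exact (continuous_const.max (c' 2)).mul (continuous_const.max (c 2).neg)
    have : Continuous fun p : S2 × S2 => (WithLp.toLp 2 (fun i => zrot (ang p.1 p.2) p.1 i) : E3) := by
      refine (PiLp.continuous_toLp 2 _).comp (continuous_pi fun i => ?_)
      fin_cases i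
      · simp only [Fin.zero_eta, Fin.isValue, zrot_zero]
        exact ((continuous_cos.comp ca).mul (c 0)).sub ((continuous_sin.comp ca).mul (c 1))
      · simp only [Fin.mk_one, Fin.isValue, zrot_one]
        exact ((continuous_sin.comp ca).mul (c 0)).add ((continuous_cos.comp ca).mul (c 1))
      · simp only [Fin.reduceFinMk, Fin.isValue, zrot_two]
        exact c 2
    exact this

/-- Q1 has a negative answer: there is a topological quandle structure on the 2-sphere which is
isomorphic neither to the trivial quandle nor to a spherical quandle. -/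
theorem result : ∃ op : S2 → S2 → S2, IsTopQuandle op ∧ ¬ IsoTrivial op ∧
    ∀ ψ : ℝ, 0 < ψ → ψ < 2 * π → ¬ IsoSpherical op ψ := by
  refine ⟨op, isTopQuandle_op, ?_, ?_⟩
  · rintro ⟨e, he⟩
    -- a point in the lower half which is moved by the north pole
    have hN : (!₂[0, 0, 1] : E3) ∈ Metric.sphere (0 : E3) 1 := by
      rw [mem_sphere_iff, v0, v1, v2]
      norm_num
    have hx : (!₂[4 / 5, 0, -(3 / 5)] : E3) ∈ Metric.sphere (0 : E3) 1 := by
      rw [mem_sphere_iff, v0, v1, v2]
      norm_num
    have h1 := e.injective (he ⟨_, hx⟩ ⟨_, hN⟩)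
    have h2 : zrot (ang (!₂[4 / 5, 0, -(3 / 5)] : E3) (!₂[0, 0, 1] : E3)) (!₂[4 / 5, 0, -(3 / 5)] : E3) =
      (!₂[4 / 5, 0, -(3 / 5)] : E3) := congrArg Subtype.val h1
    have h3 : ang (!₂[4 / 5, 0, -(3 / 5)] : E3) (!₂[0, 0, 1] : E3) = 3 / 5 := by
      unfold ang
      rw [v2, v2]
      norm_num
    rw [h3] at h2
    have h4 := congrArg (fun x : E3 => x 1) h2
    simp only [zrot_one, w0, w1] at h4
    norm_num at h4
    have := sin_pos_of_pos_of_lt_pi (show (0 : ℝ) < 3 / 5 by norm_num)
      (lt_trans (by norm_num) pi_gt_three)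
    linarith
  · rintro ψ h0 h2π ⟨e, he⟩
    have hy : (!₂[1, 0, 0] : E3) ∈ Metric.sphere (0 : E3) 1 := by
      rw [mem_sphere_iff, v0, v1, v2]
      norm_num
    obtain ⟨v, hv⟩ : ∃ v : S2, v = e ⟨_, hy⟩ := ⟨_, rfl⟩
    -- every point is fixed by the rotation about `v`
    have key : ∀ u : S2, (u : E3) = rot ψ (v : E3) (u : E3) := by
      intro u
      obtain ⟨x, rfl⟩ := e.surjective u
      have h1 := he x ⟨_, hy⟩
      have h2 : op x ⟨_, hy⟩ = x := by
        apply Subtype.ext
        show zrot (ang x (!₂[1, 0, 0] : E3)) x = x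
        have : ang x (!₂[1, 0, 0] : E3) = 0 := by
          unfold ang
          rw [v2]
          norm_num
        rw [this, zrot_z]
      rw [h2, ← hv] at h1
      exact h1
    have hv1 := (mem_sphere_iff _).mp v.2
    -- the trace of the rotation
    have tr : cos ψ = 1 := by
      have b0 : (!₂[1, 0, 0] : E3) ∈ Metric.sphere (0 : E3) 1 := by
        rw [mem_sphere_iff, v0, v1, v2]
        norm_num
      have b1 : (!₂[0, 1, 0] : E3) ∈ Metric.sphere (0 : E3) 1 := by
        rw [mem_sphere_iff, v0, v1, v2]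
        norm_num
      have b2 : (!₂[0, 0, 1] : E3) ∈ Metric.sphere (0 : E3) 1 := by
        rw [mem_sphere_iff, v0, v1, v2]
        norm_num
      have k0 := congrArg (fun x : E3 => x 0) (key ⟨_, b0⟩)
      have k1 := congrArg (fun x : E3 => x 1) (key ⟨_, b1⟩)
      have k2 := congrArg (fun x : E3 => x 2) (key ⟨_, b2⟩)
      have hin : ∀ v u : E3, inner ℝ v u = v 0 * u 0 + v 1 * u 1 + v 2 * u 2 := by
        intro v u
        rw [PiLp.inner_apply, Fin.sum_univ_three]
        simp
        ring
      have r0 : ∀ v u : E3, rot ψ v u 0 = cos ψ * u 0 + sin ψ * (v 1 * u 2 - v 2 * u 1) +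
          (1 - cos ψ) * (v 0 * u 0 + v 1 * u 1 + v 2 * u 2) * v 0 := by
        intro v u
        rw [← hin]
        rfl
      have r1 : ∀ v u : E3, rot ψ v u 1 = cos ψ * u 1 + sin ψ * (v 2 * u 0 - v 0 * u 2) +
          (1 - cos ψ) * (v 0 * u 0 + v 1 * u 1 + v 2 * u 2) * v 1 := by
        intro v u
        rw [← hin]
        rfl
      have r2 : ∀ v u : E3, rot ψ v u 2 = cos ψ * u 2 + sin ψ * (v 0 * u 1 - v 1 * u 0) +
          (1 - cos ψ) * (v 0 * u 0 + v 1 * u 1 + v 2 * u 2) * v 2 := by
        intro v u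
        rw [← hin]
        rfl
      simp only [r0, r1, r2, w0, w1, w2] at k0 k1 k2
      linear_combination (-1 / 2) * (k0 + k1 + k2) - (1 / 2) * (1 - cos ψ) * hv1
    have : ψ = 0 := by
      rw [cos_eq_one_iff_of_lt_of_lt] at tr
      · exact tr
      · linarith
      · exact h2π
    linarith

end Pool.Agent.Results.MP_6238b5_al.ExoticQuandle
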